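import Pool.Agent.U437.AP.Lists

/-!
# Adaptive polynomial conditions for consecutive primes at every scale next to a record gap

Let `f(x) = log x (log₂ x)² log₄ x / (log₃ x)²`, the size of the largest gaps between consecutive
primes that are known to occur up to `x`. Fix `k, N, D` and `ε > 0`. For all large `x`, all
`1 ≤ H ≤ c f(x)` and EVERY assignment `P` of `N` real polynomials of degree at most `D` without constant
term to each finite sequence of natural numbers, at least `x^(7/8)` clusters of `k + 1` consecutive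
primes up to `x`, which follow a gap of size at least `c f(x)` and have all gaps between `H` and `C H`,
have the following property: for all members `q_0 < q_1 < … < q_r < t` of the cluster the values of the
polynomials `P (q_1 - q_0, …, q_r - q_(r-1))` at `t - q_r` are within `ε` of integers. The same holds
when the cluster is read from right to left. The constants do not depend on `P`.

So the conditions on a difference may depend in an arbitrary way on the previous differences; for
example, for every function `θ : ℕ → ℝ` at least `x^(7/8)` of the clusters have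
`‖θ(q_j - q_i) (q_l - q_j)^e‖ < ε` for all `i < j < l` and `1 ≤ e ≤ D`. For fixed polynomials in the
vector of the gaps this is the polynomial recurrence along vectors of gaps (helper898, helper673).

Method: the bounded weights of the engine are chosen one after the other by simultaneous polynomial
approximation, uniformly in the coefficients (from the uniform polynomial van der Waerden theorem of
helper956), so that every step changes all the relevant polynomials of the earlier partial sums by
nearly integral amounts; the engine is that of helper898 (`Pool.Agent.Y898.Engine2`).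
-/

set_option autoImplicit false

namespace Pool.Agent.Results.MP_b0c12c_nt.AdaptivePolynomials

open Polynomial

/-- The record scale `f(x) = log x (log₂ x)² log₄ x / (log₃ x)²` (iterated natural logarithms). -/
noncomputable def f (x : ℝ) : ℝ :=
  Real.log x * (Real.log (Real.log x)) ^ 2 * Real.log (Real.log (Real.log (Real.log x))) /
    (Real.log (Real.log (Real.log x))) ^ 2

/-- The `i`-th prime, numbered from `p 0 = 2`. -/
noncomputable def p (i : ℕ) : ℕ := Nat.nth Nat.Prime i

/-- The gap after the `i`-th prime. -/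
noncomputable def d (i : ℕ) : ℕ := p (i + 1) - p i

/-- The primes `p_n, …, p_(n+k)` are at most `x`, the `k` gaps between them are at least `H` and at
most `C H`, and the gap before `p_n` is at least `c f(x)`. -/
def Cluster (c C x H : ℝ) (k n : ℕ) : Prop :=
  0 < n ∧ (p (n + k) : ℝ) ≤ x ∧ c * f x ≤ (p n : ℝ) - p (n - 1) ∧
    ∀ i < k, H ≤ (d (n + i) : ℝ) ∧ (d (n + i) : ℝ) ≤ C * H

/-- The list of the primes `p_n, …, p_(n+k)`. -/
noncomputable def block (k n : ℕ) : List ℕ := (List.range (k + 1)).map fun i => p (n + i)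

/-- The list of the differences of the consecutive members of a list. -/
def diffs : List ℕ → List ℕ
  | [] => []
  | [_] => []
  | a :: b :: l => (b - a) :: diffs (b :: l)

/-- `P` assigns to each finite sequence of natural numbers `N` real polynomials of degree at most `D`
without constant term. -/
def Admissible {N : ℕ} (D : ℕ) (P : List ℕ → Fin N → ℝ[X]) : Prop :=
  ∀ l m, (P l m).natDegree ≤ D ∧ (P l m).coeff 0 = 0

/-- For all members `q_0 < … < q_r = s < t` of the list `B` the polynomials attached to the sequence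
`q_1 - q_0, …, q_r - q_(r-1)` take values within `ε` of integers at `t - s`. -/
def Forward {N : ℕ} (P : List ℕ → Fin N → ℝ[X]) (ε : ℝ) (B : List ℕ) : Prop :=
  ∀ (L : List ℕ) (s t : ℕ), (L ++ [s, t]).Sublist B → ∀ m, ∃ u : ℤ,
    |(P (diffs (L ++ [s])) m).eval ((t : ℝ) - s) - u| < ε

/-- For all members `t < s = q_0 < … < q_r` of the list `B` the polynomials attached to the sequence
`q_r - q_(r-1), …, q_1 - q_0` take values within `ε` of integers at `s - t`. -/
def Backward {N : ℕ} (P : List ℕ → Fin N → ℝ[X]) (ε : ℝ) (B : List ℕ) : Prop :=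
  ∀ (L : List ℕ) (s t : ℕ), (t :: s :: L).Sublist B → ∀ m, ∃ u : ℤ,
    |(P (diffs (s :: L)).reverse m).eval ((s : ℝ) - t) - u| < ε

theorem diffs_eq : ∀ l : List ℕ, diffs l = Pool.Agent.U437.AP.diffs id l
  | [] => rfl
  | [_] => rfl
  | a :: b :: l => by
    rw [diffs, Pool.Agent.U437.AP.diffs, diffs_eq (b :: l)]
    rfl

theorem index_sublist {k i j l : ℕ} (hij : i < j) (hjl : j < l) (hl : l ≤ k) :
    [i, j, l].Sublist (List.range (k + 1)) := by
  refine List.mem_sublists.1 (Pool.Agent.U437.AP.mem_sublists_range (K := k) ?_ ?_)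
  · simp only [List.pairwise_cons, List.mem_cons, or_false, forall_eq_or_imp, forall_eq,
      List.not_mem_nil, false_implies, implies_true, and_true, List.Pairwise.nil]
    omega
  · intro a ha
    simp only [List.mem_cons, List.mem_nil_iff, or_false] at ha
    omega

/-- **Adaptive polynomial conditions for consecutive primes at every scale next to a record gap.**
For all `k`, `N`, `D` and `ε > 0` there are `c, C > 0` and `x₀` such that for all `x ≥ x₀` and
`1 ≤ H ≤ c f(x)`:
(1) for every admissible `P` at least `x^(7/8)` clusters satisfy the forward conditions and at least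
`x^(7/8)` satisfy the backward conditions;
(2) for every function `θ` at least `x^(7/8)` clusters have `‖θ(q_j - q_i) (q_l - q_j)^e‖ < ε` for all
members `q_i < q_j < q_l` and all `1 ≤ e ≤ D`. -/
theorem result (k N D : ℕ) (ε : ℝ) (hε : 0 < ε) : ∃ c C : ℝ, 0 < c ∧ 0 < C ∧
    ∃ x₀ : ℝ, ∀ x : ℝ, x₀ ≤ x → ∀ H : ℝ, 1 ≤ H → H ≤ c * f x →
    (∀ P : List ℕ → Fin N → ℝ[X], Admissible D P →
      x ^ (7 / 8 : ℝ) ≤
        (Set.ncard {n : ℕ | Cluster c C x H k n ∧ Forward P ε (block k n)} : ℝ) ∧
      x ^ (7 / 8 : ℝ) ≤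
        (Set.ncard {n : ℕ | Cluster c C x H k n ∧ Backward P ε (block k n)} : ℝ)) ∧
    ∀ θ : ℕ → ℝ, x ^ (7 / 8 : ℝ) ≤ (Set.ncard {n : ℕ | Cluster c C x H k n ∧
      ∀ i j l : ℕ, i < j → j < l → l ≤ k → ∀ e : ℕ, 1 ≤ e → e ≤ D → ∃ u : ℤ,
        |θ (p (n + j) - p (n + i)) * ((p (n + l) : ℝ) - p (n + j)) ^ e - u| < ε} : ℝ) := by
  have key : ∀ N : ℕ, ∃ c C : ℝ, 0 < c ∧ 0 < C ∧
      ∃ x₀ : ℝ, ∀ x : ℝ, x₀ ≤ x → ∀ H : ℝ, 1 ≤ H → H ≤ c * f x →
      (∀ P : List ℕ → Fin N → ℝ[X], Admissible D P →
        x ^ (7 / 8 : ℝ) ≤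
          (Set.ncard {n : ℕ | Cluster c C x H k n ∧ Forward P ε (block k n)} : ℝ) ∧
        x ^ (7 / 8 : ℝ) ≤
          (Set.ncard {n : ℕ | Cluster c C x H k n ∧ Backward P ε (block k n)} : ℝ)) := by
    intro N
    obtain ⟨c, C, hc, hC, h⟩ := Pool.Agent.U437.AP.adaptive k N D ε hε
    obtain ⟨x₀, hx₀⟩ := Filter.eventually_atTop.1 h
    refine ⟨c, C, hc, hC, x₀, fun x hx H hH hHc P hP => ?_⟩
    obtain ⟨h1, h2⟩ := hx₀ x hx H hH hHc P (fun l m => (hP l m).1) (fun l m => (hP l m).2)
    constructor
    · refine h1.trans ?_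
      rw [Nat.cast_le]
      refine Set.ncard_le_ncard ?_
        (Pool.Agent.U437.DC.finite_of (x := x) (k := k) fun n hn => hn.1.2.1)
      rintro n ⟨hn1, hn2⟩
      refine ⟨hn1, fun L s t hL m => ?_⟩
      rw [diffs_eq]
      exact Pool.Agent.U437.AP.forward hn2 hL m
    · refine h2.trans ?_
      rw [Nat.cast_le]
      refine Set.ncard_le_ncard ?_
        (Pool.Agent.U437.DC.finite_of (x := x) (k := k) fun n hn => hn.1.2.1)
      rintro n ⟨hn1, hn2⟩
      refine ⟨hn1, fun L s t hL m => ?_⟩
      rw [diffs_eq]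
      exact Pool.Agent.U437.AP.backward hn2 hL m
  obtain ⟨c, C, hc, hC, x₀, h⟩ := key (N + D)
  refine ⟨c, C, hc, hC, x₀, fun x hx H hH hHc => ⟨fun P hP => ?_, fun θ => ?_⟩⟩
  · obtain ⟨h1, h2⟩ := h x hx H hH hHc _
      (Pool.Agent.U437.AP.comb_adm hP (Pool.Agent.U437.AP.th_adm (fun _ => 0) D))
    constructor
    · refine h1.trans ?_
      rw [Nat.cast_le]
      refine Set.ncard_le_ncard ?_
        (Pool.Agent.U437.DC.finite_of (x := x) (k := k) fun n hn => hn.1.2.1)
      rintro n ⟨hn1, hn2⟩
      refine ⟨hn1, fun L s t hL m => ?_⟩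
      have h3 := hn2 L s t hL (Fin.castAdd D m)
      rw [Pool.Agent.U437.AP.comb_left] at h3
      exact h3
    · refine h2.trans ?_
      rw [Nat.cast_le]
      refine Set.ncard_le_ncard ?_
        (Pool.Agent.U437.DC.finite_of (x := x) (k := k) fun n hn => hn.1.2.1)
      rintro n ⟨hn1, hn2⟩
      refine ⟨hn1, fun L s t hL m => ?_⟩
      have h3 := hn2 L s t hL (Fin.castAdd D m)
      rw [Pool.Agent.U437.AP.comb_left] at h3
      exact h3
  · obtain ⟨h1, -⟩ := h x hx H hH hHc _
      (Pool.Agent.U437.AP.comb_adm (N := N) (P := fun _ _ => 0) (fun _ _ => by simp)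
        (Pool.Agent.U437.AP.th_adm θ D))
    refine h1.trans ?_
    rw [Nat.cast_le]
    refine Set.ncard_le_ncard ?_
      (Pool.Agent.U437.DC.finite_of (x := x) (k := k) fun n hn => hn.1.2.1)
    rintro n ⟨hn1, hn2⟩
    refine ⟨hn1, fun i j l hij hjl hl e he heD => ?_⟩
    have hsub : ([p (n + i)] ++ [p (n + j), p (n + l)]).Sublist (block k n) :=
      (index_sublist hij hjl hl).map fun i => p (n + i)
    obtain ⟨u, hu⟩ := hn2 [p (n + i)] (p (n + j)) (p (n + l)) hsub
      (Fin.natAdd N ⟨e - 1, by omega⟩)
    refine ⟨u, ?_⟩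
    rw [Pool.Agent.U437.AP.comb_right] at hu
    have hdl : diffs ([p (n + i)] ++ [p (n + j)]) = [p (n + j) - p (n + i)] := rfl
    rw [hdl] at hu
    simp only [Pool.Agent.U437.AP.th, eval_mul, eval_C, eval_pow, eval_X] at hu
    have he1 : e - 1 + 1 = e := by omega
    rw [he1] at hu
    exact hu

end Pool.Agent.Results.MP_b0c12c_nt.AdaptivePolynomials
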