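import Pool.Agent.U602.JD.Main

set_option autoImplicit false

/-! # Record prime gaps around a member of an automatic set and several real multiples of it

Let `b ≥ 2` and let `A` be a `b`-automatic set of natural numbers (the sets `{n : b ^ k n + r ∈ A}`,
`0 ≤ r < b ^ k`, are finitely many) of positive upper Banach density. Let `α₁, …, α_r > 0` be real
numbers such that `1, α₁, …, α_r` satisfy a Diophantine condition
`|h₁ α₁ + ⋯ + h_r α_r - m| ≥ c H ^ (-τ)` for all integers `m` and integers `h_j`, not all zero, with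
`|h_j| ≤ H`. (It holds for almost all `α`, and for all algebraic `α_j` with `1, α₁, …, α_r`
linearly independent over the rationals.) Let `β₁, …, β_r` be real numbers and `ε > 0`.

There is `κ > 0` such that for all large `X` there are at least `X ^ (1 - ε)` members `n ≤ X` of `A`
such that no prime lies within `κ log X (log₂ X)² log₄ X / (log₃ X)²` of any of the numbers
`n, α₁ n + β₁, …, α_r n + β_r`. For instance `n`, `√2 n`, `∛2 n` for `n` with an even sum of digits.

Proof. The exponential sums of the automaton (`U602/AU`: the transfer matrices contract modulo special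
functions, uniformly in the frequency) are estimated at the frequencies `l / q + ∑ h_j α_j / q`, with a
fraction of about `1 / (τ + 2)` of the digits for the contraction and the other digits for the
geometric sums of the special functions. At the frequencies `l / q` this is only possible for `q` prime
to a fixed number `D`; so the joint covering criterion of the starting library (`Y961/JR`, helper961)
is extended to families about which nothing is known modulo the primes dividing `D`. -/

namespace Pool.Agent.Results.MP_b0c12c_nt.AutomaticNumbersAndMultiples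

open Filter

theorem result (b : ℕ) (hb : 2 ≤ b) (A : Set ℕ)
    (hA : {B : Set ℕ | ∃ k r : ℕ, r < b ^ k ∧ B = {n : ℕ | b ^ k * n + r ∈ A}}.Finite)
    (a : ℝ) (ha : 0 < a)
    (hd : ∀ H : ℕ, ∃ u v : ℕ, u + H ≤ v ∧ a * ((v : ℝ) - u) ≤ ((A ∩ Set.Ioc u v).ncard : ℝ))
    (r : ℕ) (hr : 1 ≤ r) (α β : Fin r → ℝ) (hα : ∀ j, 0 < α j)
    (c τ : ℝ) (hc : 0 < c) (hτ : 0 ≤ τ)
    (hdio : ∀ (H : ℕ) (h : Fin r → ℤ), h ≠ 0 → (∀ j, |h j| ≤ H) → ∀ m : ℤ,
      c * (H : ℝ) ^ (-τ) ≤ |∑ j, (h j : ℝ) * α j - m|)
    (ε : ℝ) (hε : 0 < ε) :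
    ∃ κ : ℝ, 0 < κ ∧ ∃ X₀ : ℝ, ∀ X : ℝ, X₀ ≤ X →
      X ^ (1 - ε) ≤ ({n : ℕ | n ∈ A ∧ (n : ℝ) ≤ X ∧ ∀ q : ℕ, q.Prime →
        κ * (Real.log X * (Real.log (Real.log X)) ^ 2 *
          Real.log (Real.log (Real.log (Real.log X))) / (Real.log (Real.log (Real.log X))) ^ 2) <
            |(q : ℝ) - n| ∧
        ∀ j, κ * (Real.log X * (Real.log (Real.log X)) ^ 2 *
          Real.log (Real.log (Real.log (Real.log X))) / (Real.log (Real.log (Real.log X))) ^ 2) <
            |(q : ℝ) - (α j * n + β j)|}.ncard : ℝ) := by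
  classical
  obtain ⟨κ, hκ, h⟩ := Pool.Agent.U602.JD.main_kernel b hb A hA a ha (by
    intro H
    obtain ⟨u, v, huv, h⟩ := hd H
    refine ⟨u, v, huv, h.trans (le_of_eq ?_)⟩
    rw [← Set.ncard_coe_finset]
    congr 2
    ext n
    simp [and_comm]) r hr α β hα c τ hc hτ hdio ε hε
  obtain ⟨X₀, hX₀⟩ := eventually_atTop.1 h
  refine ⟨κ, hκ, max X₀ 0, fun X hX => ?_⟩
  have h1 := hX₀ X ((le_max_left _ _).trans hX)
  have hX0 : 0 ≤ X := (le_max_right _ _).trans hX
  refine h1.trans (le_of_eq ?_)
  rw [← Set.ncard_coe_finset]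
  congr 2
  ext n
  simp only [Finset.coe_filter, Finset.mem_range, Set.mem_ofPred_eq, Nat.lt_succ_iff,
    Nat.le_floor_iff hX0]
  constructor
  · rintro ⟨h2, h3, h4, h5⟩
    exact ⟨h3, h2, fun q hq => ⟨h4 q hq, fun j => h5 j q hq⟩⟩
  · rintro ⟨h2, h3, h4⟩
    exact ⟨h3, h2, fun q hq => (h4 q hq).1, fun j q hq => (h4 q hq).2 j⟩

end Pool.Agent.Results.MP_b0c12c_nt.AutomaticNumbersAndMultiples
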