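import Mathlib
import Pool.Agent.U839.Er.FinM

set_option autoImplicit false

/-!
# The counting function on the scale of Cramér's conjecture, in sieved random models of the primes

Cramér's conjecture `L = 1` says that an interval of length `c log² n` after a large `n` contains a prime if `c > 1`, but not
always if `c < 1`. In the random models of the primes with a sieve we determine how the chosen numbers can be distributed
on this scale. Let `T` be nondecreasing and smaller than every power of `n`. The integers `n` without prime factors `p ≤ T(n)`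
are chosen independently with probability `∏_{p ≤ T(n)} (1 - 1/p)⁻¹ / log n`. Let `c_0, c_1, …` be positive numbers. After `n`
we take the adjacent windows of lengths `c_0 log² n, c_1 log² n, …`, and `D(n)` is the vector of the numbers of chosen
integers in the first `k` of them, divided by `log n`. With the rate function `I_c(α) = c - α + α log(α/c)` of the Poisson
law let `I(α) = I_(c_0)(α_0) + … + I_(c_(k-1))(α_(k-1))`. If `T(n) ≤ (log n)^(o(1))` then almost surely, for all `k`,

* the set of the limit points of `D(n)` is `{α : α_i ≥ 0, I(α) ≤ 1}`, and `D(n)` is bounded;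
* for every such `α` the number of the `n ≤ X` for which `D(n)` is near `α` is `X^(1 - I(α) + o(1))`.

This is the finite dimensional form of a functional law for the counting function: the functions
`t ↦ #(chosen numbers in (n, n + t log² n])/log n` cluster exactly at the functions `f` with
`∫ (1 - f' + f' log f') dt ≤ 1`. It contains the gaps (`α_i = 0` in some windows) and the extremal counts in one window.
Conversely, if the limit points are as stated for all windows, then `T(n) ≤ (log n)^(o(1))`.

Proof. Upper bounds: Chernoff's inequality with the tilts `log(α_i/c_i)` in the windows, since by the fundamental lemma the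
expected numbers are `(c_i + o(1)) log n` for all `n`. Lower bounds: the probability of exactly `j` elements of a window is at
least `e^(-(1 + o(1)) S)` times the elementary symmetric polynomial of degree `j` in the probabilities, which is at least
`(S - j M)^j / j!`, where `S` is their sum and `M → 0` their maximum. For disjoint blocks of windows these events are
independent. Simultaneous statements for all `α` follow by countable covers and the continuity of `I`. The converse
follows from the effect of Maier's theorem for `T(n) > (log n)^θ` (library `Pool.Agent.U839.Sv`).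
-/

open MeasureTheory ProbabilityTheory Filter Topology

namespace Pool.Agent.Results.MP_b0c12c_nt.JointCountsInSievedModels

open Classical in
/-- `∏_{p ≤ T(n)} (1 - 1/p)⁻¹` if `n` has no prime factor `p ≤ T(n)`, and `0` otherwise. -/
noncomputable def weight (T : ℕ → ℕ) (n : ℕ) : ℝ :=
  if ∀ p, p.Prime → p ≤ T n → ¬ p ∣ n then
    ∏ p ∈ (Finset.Icc 1 (T n)).filter Nat.Prime, (1 - 1 / (p : ℝ))⁻¹ else 0

/-- The random model: `E n` is the event that `n` is chosen; these events are independent and have
probability `weight T n / log n` (if this is at most `1`, which is the case for all large `n` here). -/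
structure Model {Ω : Type*} [MeasurableSpace Ω] (μ : Measure Ω) (T : ℕ → ℕ) (E : ℕ → Set Ω) : Prop where
  meas : ∀ n, MeasurableSet (E n)
  indep : iIndepSet E μ
  law : ∀ n : ℕ, μ.real (E n) = min 1 (weight T n / Real.log n)

/-- `T` is nondecreasing and eventually smaller than every positive power of `n`. -/
def Sieve (T : ℕ → ℕ) : Prop :=
  Monotone T ∧ ∀ ε : ℝ, 0 < ε → ∀ᶠ n : ℕ in atTop, (T n : ℝ) ≤ (n : ℝ) ^ ε

/-- The number of the elements of `Q` in `(n + a log² n, n + b log² n]`. -/
noncomputable def count (Q : Set ℕ) (a b : ℝ) (n : ℕ) : ℕ :=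
  {m : ℕ | m ∈ Q ∧ (n : ℝ) + a * (Real.log n) ^ 2 < m ∧ (m : ℝ) ≤ n + b * (Real.log n) ^ 2}.ncard

/-- The end points `c_0 + … + c_(i-1)` of the windows. -/
noncomputable def C (c : ℕ → ℝ) (i : ℕ) : ℝ := ∑ l ∈ Finset.range i, c l

/-- The numbers of elements of the first `k` windows after `n`, divided by `log n`. -/
noncomputable def D (Q : Set ℕ) (c : ℕ → ℝ) (k n : ℕ) : Fin k → ℝ := fun i =>
  (count Q (C c i) (C c (i + 1)) n : ℝ) / Real.log n

/-- The sum of the rates of the windows. -/
noncomputable def I (c : ℕ → ℝ) (k : ℕ) (α : Fin k → ℝ) : ℝ :=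
  ∑ i : Fin k, (c i - α i + α i * Real.log (α i / c i))

/-- The law of the numbers of elements of `k` adjacent windows. The distance is the maximum of the
distances of the components. -/
structure CountLaw (Q : Set ℕ) (c : ℕ → ℝ) (k : ℕ) : Prop where
  /-- The limit points are the vectors of nonnegative numbers with total rate at most `1`. -/
  limits : {α : Fin k → ℝ | MapClusterPt α atTop (D Q c k)} = {α | (∀ i, 0 ≤ α i) ∧ I c k α ≤ 1}
  /-- The vectors are bounded. -/
  bounded : ∀ᶠ n : ℕ in atTop, ∀ i, D Q c k n i ≤ 4 * C c k + 2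
  /-- Many vectors are near `α`. -/
  many : ∀ α : Fin k → ℝ, (∀ i, 0 ≤ α i) → I c k α ≤ 1 → ∀ ε : ℝ, 0 < ε → ∀ᶠ X : ℕ in atTop,
    (X : ℝ) ^ (1 - I c k α - ε) ≤ ({n : ℕ | dist (D Q c k n) α < ε ∧ X < n ∧ n ≤ 2 * X}.ncard : ℝ)
  /-- There are not more. -/
  few : ∀ α : Fin k → ℝ, (∀ i, 0 ≤ α i) → I c k α ≤ 1 → ∀ ε : ℝ, 0 < ε → ∃ δ : ℝ, 0 < δ ∧
    ∀ᶠ X : ℕ in atTop, ({n : ℕ | dist (D Q c k n) α < δ ∧ n ≤ X}.ncard : ℝ) ≤ (X : ℝ) ^ (1 - I c k α + ε)

open Classical in
theorem count_eq (Q : Set ℕ) (c : ℕ → ℝ) (hc : ∀ i, 0 < c i) (i n : ℕ) :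
    count Q (C c i) (C c (i + 1)) n = ((Pool.Agent.U839.Er.Wi c n i).filter (fun m => m ∈ Q)).card := by
  unfold count Pool.Agent.U839.Er.Wi
  rw [← Set.ncard_coe_finset]
  congr 1
  ext m
  rw [Finset.mem_coe, Finset.mem_filter, Finset.mem_Ioc]
  have e1 : C c i = Pool.Agent.U839.Ch.Ys c i := rfl
  have e2 : C c (i + 1) = Pool.Agent.U839.Ch.Ys c (i + 1) := rfl
  have h0 : 0 ≤ C c i * (Real.log n) ^ 2 := mul_nonneg (by
    rw [e1]
    exact Pool.Agent.U839.Er.Ys_nn c hc i) (sq_nonneg _)
  have h0' : 0 ≤ C c (i + 1) * (Real.log n) ^ 2 := mul_nonneg (by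
    rw [e2]
    exact Pool.Agent.U839.Er.Ys_nn c hc (i + 1)) (sq_nonneg _)
  rw [← e1, ← e2]
  unfold Pool.Agent.U839.Sv.wn
  constructor
  · rintro ⟨h1, h2, h3⟩
    have hnm : n ≤ m := by
      have : (n : ℝ) ≤ m := by linarith
      exact_mod_cast this
    refine ⟨⟨?_, ?_⟩, h1⟩
    · have h4 : ⌊C c i * (Real.log n) ^ 2⌋₊ < m - n := by
        rw [Nat.floor_lt h0, Nat.cast_sub hnm]
        linarith
      omega
    · have h4 : m - n ≤ ⌊C c (i + 1) * (Real.log n) ^ 2⌋₊ := by
        apply Nat.le_floor
        rw [Nat.cast_sub hnm]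
        linarith
      omega
  · rintro ⟨⟨h2, h3⟩, h1⟩
    refine ⟨h1, ?_, ?_⟩
    · have h4 : ⌊C c i * (Real.log n) ^ 2⌋₊ < m - n := by omega
      rw [Nat.floor_lt h0, Nat.cast_sub (by omega)] at h4
      linarith
    · have h4 : (m : ℝ) ≤ n + (⌊C c (i + 1) * (Real.log n) ^ 2⌋₊ : ℝ) := by exact_mod_cast h3
      have h5 := Nat.floor_le h0'
      linarith

theorem D_eq (Q : Set ℕ) (c : ℕ → ℝ) (hc : ∀ i, 0 < c i) (k : ℕ) : D Q c k = Pool.Agent.U839.Er.VV Q c k := by
  funext n i
  unfold D Pool.Agent.U839.Er.VV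
  rw [count_eq Q c hc]

/-- The law holds almost surely for all windows if and only if `T(n) ≤ (log n)^(o(1))`. -/
theorem result {Ω : Type*} [MeasurableSpace Ω] {μ : Measure Ω} [IsProbabilityMeasure μ] (T : ℕ → ℕ)
    (hT : Sieve T) (E : ℕ → Set Ω) (hE : Model μ T E) :
    (∀ c : ℕ → ℝ, (∀ i, 0 < c i) → ∀ᵐ ω ∂μ, ∀ k : ℕ, CountLaw {n | ω ∈ E n} c k) ↔
      ∀ θ : ℝ, 0 < θ → ∀ᶠ n : ℕ in atTop, (T n : ℝ) ≤ (Real.log n) ^ θ := by
  classical
  have h : Pool.Agent.U839.Sv.Sieved μ E T := ⟨hE.meas, hE.indep, hE.law⟩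
  constructor
  · intro hlaw θ hθ
    refine Pool.Agent.U839.Er.convM T hT.1 hT.2 E h ?_ θ hθ
    intro c hc
    filter_upwards [hlaw c hc] with ω hω k
    have h1 := (hω k).limits
    rw [D_eq _ c hc] at h1
    exact h1
  · intro hTl c hc
    rw [ae_all_iff]
    intro k
    have hb : ∀ᵐ ω ∂μ, ∀ᶠ n : ℕ in atTop, ∀ i, D {n | ω ∈ E n} c k n i ≤ 4 * C c k + 2 := by
      rcases Nat.eq_zero_or_pos k with hk | hk
      · subst hk
        exact Eventually.of_forall (fun ω => Eventually.of_forall (fun n i => i.elim0))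
      · have hC : 0 < C c k := Finset.sum_pos (fun l _ => hc l) ⟨0, Finset.mem_range.2 hk⟩
        filter_upwards [Pool.Agent.U839.Er.pt_bdd T hT.1 hTl h (C c k) hC] with ω hω
        filter_upwards [hω, Filter.eventually_ge_atTop 2] with n hn hn2 i
        have hL : 0 < Real.log n := Real.log_pos (by exact_mod_cast (by omega : 1 < n))
        rw [D_eq _ c hc]
        unfold Pool.Agent.U839.Er.VV
        rw [div_le_iff₀ hL]
        refine le_trans ?_ hn
        have h1 := Finset.card_le_card (Finset.filter_subset_filter (fun m => m ∈ {n | ω ∈ E n})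
          (Pool.Agent.U839.Er.Wi_sub c hc n i k i.2))
        unfold Pool.Agent.U839.Er.cn
        exact_mod_cast h1
    filter_upwards [Pool.Agent.U839.Er.manyM_all T hT.1 hTl h c hc k,
      Pool.Agent.U839.Er.fewM_all T hT.1 hTl h c hc k,
      Pool.Agent.U839.Er.noneM_all T hT.1 hTl h c hc k, hb] with ω h1 h2 h3 h4
    have h5 := Pool.Agent.U839.Er.limitsM_all _ c k h1 h3
    refine ⟨?_, h4, ?_, ?_⟩
    · rw [D_eq _ c hc]
      exact h5
    · rw [D_eq _ c hc]
      exact fun α h6 h7 => h1 α ⟨h6, h7⟩
    · rw [D_eq _ c hc]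
      exact fun α h6 h7 => h2 α ⟨h6, h7⟩

end Pool.Agent.Results.MP_b0c12c_nt.JointCountsInSievedModels
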