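import Mathlib
import Pool.Agent.U462.Gap.Fin

set_option autoImplicit false

/-!
# Cramér's constant in every sequential random model of the primes

A random set is built step by step, with arbitrary dependence; all that is known is that the conditional
probability of `n + 1`, given the first `n` steps, is asymptotic to a deterministic profile `a (n + 1)`.
We prove a law for the number of the empty windows `(n, n + c log² n]`, `2 ^ i ≤ n < 2 ^ (i + 1)`: up to
factors `2 ^ (o(i))` it is the number one expects from the profile. Hence Cramér's constant `L` is almost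
surely the same for all models with the same profile. For the profiles of the models in which the
integers with a prime factor `≤ T(n)` are removed (Cramér, Granville) we determine or estimate the
statistics on the record scale: if `T(n) = (log n) ^ o(1)` it is Cramér's (`x ^ (1 - c + o(1))` empty windows,
`L = 1`); for every `T` there are at least so many, and `L ≥ 1`; if `T(n) = (log n) ^ (1 - o(1))` there are
more, by a power of `x`, for every `c > 0`, and `L ≥ 2 exp(-γ) > 1`.

Proof of the law: conditional product bounds for empty windows, the first moment, and an exponential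
bound for the lower tail of the number of successes in successive dependent trials (one residue class of
starting points `n` modulo the length of the windows). For `T(n) = (log n) ^ (1 - o(1))`: the windows after the
multiples of the product of the primes `≤ T`; they contain only primes and products of two primes,
about half as many as expected up to the factor `exp(γ)` of Mertens. For small `T`: the fundamental lemma of
the sieve (library `H154R3`, through `U839.Sv.Count`).
-/

open MeasureTheory Filter Topology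

namespace Pool.Agent.Results.MP_b0c12c_nt.RecordScaleLaw

/-- length `⌊c log² n⌋` of the window at `n` -/
noncomputable def window (c : ℝ) (n : ℕ) : ℕ := ⌊c * Real.log n ^ 2⌋₊

/-- mass of the window `(n, n + c log² n]` for the profile `a` -/
noncomputable def mass (a : ℕ → ℝ) (c : ℝ) (n : ℕ) : ℝ := ∑ m ∈ Finset.Ioc n (n + window c n), a m

/-- the number of empty windows with `2 ^ i ≤ n < 2 ^ (i + 1)` one expects from the profile `a` -/
noncomputable def expected (a : ℕ → ℝ) (c : ℝ) (i : ℕ) : ℝ :=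
  ∑ n ∈ Finset.Ico (2 ^ i) (2 ^ (i + 1)), Real.exp (-mass a c n)

open Classical in
/-- the number of the `n` with `2 ^ i ≤ n < 2 ^ (i + 1)` for which `(n, n + c log² n]` contains no element of `S` -/
noncomputable def empties (S : Set ℕ) (c : ℝ) (i : ℕ) : ℕ :=
  ((Finset.Ico (2 ^ i) (2 ^ (i + 1))).filter (fun n => ∀ m, n < m → m ≤ n + window c n → m ∉ S)).card

/-- Cramér's constant `limsup (q_{k+1} - q_k) (log q_k)^(-2)` of the set `S = {q_0 < q_1 < ...}` -/
noncomputable def cramer (S : Set ℕ) : EReal :=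
  limsup (fun k : ℕ => ((((Nat.nth (· ∈ S) (k + 1) : ℝ) - Nat.nth (· ∈ S) k) *
    (Real.log (Nat.nth (· ∈ S) k) ^ 2)⁻¹ : ℝ) : EReal)) atTop

/-- A sequential model with profile `a`: the set of the `n` with `ω ∈ A n` is adapted to the filtration, and
almost surely the conditional probability of `n + 1`, given the first `n` steps, is asymptotic to
`a (n + 1)` (in particular it is `0` for large `n` if `a (n + 1) = 0`). -/
structure IsModel {Ω : Type} {m0 : MeasurableSpace Ω} (μ : Measure Ω) (ℱ : Filtration ℕ m0)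
    (A : ℕ → Set Ω) (a : ℕ → ℝ) : Prop where
  adapted : ∀ n, MeasurableSet[ℱ n] (A n)
  law : ∀ᵐ ω ∂μ, ∀ ε : ℝ, 0 < ε → ∀ᶠ n : ℕ in atTop,
    |(μ[(A (n + 1)).indicator (fun _ => (1 : ℝ)) | ℱ n]) ω - a (n + 1)| ≤ ε * a (n + 1)

/-- the infimum of all `c > 0` for which `∑ exp(-mass a c n)`, the expected number of empty windows, is
finite -/
noncomputable def constant (a : ℕ → ℝ) : EReal :=
  sInf {x : EReal | ∃ c : ℝ, 0 < c ∧ x = (c : EReal) ∧ Summable (fun n : ℕ => Real.exp (-mass a c n))}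

/-- for every `δ > 0` the windows `(n, n + δ log² n]` have a mass of at least `κ log n`, `κ = κ(δ) > 0` -/
def Spread (a : ℕ → ℝ) : Prop :=
  ∀ δ : ℝ, 0 < δ → ∃ κ : ℝ, 0 < κ ∧ ∀ᶠ n : ℕ in atTop, κ * Real.log n ≤ mass a δ n

open Classical in
/-- the profile of the model with sieve limit `T`: `∏_{p ≤ T(n)} (1 - 1/p)⁻¹ / log n` if `n` has no prime
factor `p ≤ T(n)`, and `0` otherwise -/
noncomputable def sieveProfile (T : ℕ → ℕ) (n : ℕ) : ℝ :=
  (if ∀ p, p.Prime → p ≤ T n → ¬ p ∣ n then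
    ∏ p ∈ (Finset.Icc 1 (T n)).filter Nat.Prime, (1 - 1 / (p : ℝ))⁻¹ else 0) / Real.log n

theorem toModel {Ω : Type} {m0 : MeasurableSpace Ω} {μ : Measure Ω} {ℱ : Filtration ℕ m0}
    {A : ℕ → Set Ω} {a : ℕ → ℝ} (h : IsModel μ ℱ A a) : Pool.Agent.U462.Gap.Model μ ℱ A a :=
  ⟨h.adapted, h.law⟩

/-- **(1) Law of the empty windows.** For every profile `a ≥ 0` with limit `0`, every model and every
`c ≥ 0`: almost surely `empties ≤ 2 ^ (ε i) expected` and `expected ≤ 2 ^ (ε i) (empties + 1)` for all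
`ε > 0` and large `i`.
**(2) The constant.** If moreover `a` is spread, then in every model with the profile `a` almost surely
`limsup (q_{k+1} - q_k) (log q_k)^(-2) = constant a`.
**(3) Sieved models.** Let `T` be nondecreasing, smaller than every power of `n`, and consider any model
with the profile `sieveProfile T`. (a) Almost surely Cramér's constant is `≥ 1`, and for `0 < c < 1`
`empties ≥ 2 ^ ((1 - c - ε) i)` for all `ε > 0`, large `i`. (b) If `T` is smaller than every power of `log n`, then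
almost surely Cramér's constant is `1`, and `empties ≤ 2 ^ ((1 - c + ε) i)`. (c) If `T` is larger than
`(log n) ^ θ` for every `θ < 1`, and smaller than `ε log n` for every `ε > 0`, then almost surely Cramér's
constant is `≥ 2 exp(-γ)`, and for `0 < c < 2 exp(-γ)` `empties ≥ 2 ^ ((1 - (exp(γ) / 2) c - ε) i)` for all
`ε > 0` and large `i`.
**(4)** Independent events with probabilities asymptotic to `a n` form a model. -/
theorem result :
    (∀ (Ω : Type) (m0 : MeasurableSpace Ω) (μ : Measure Ω) (_ : IsProbabilityMeasure μ)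
      (ℱ : Filtration ℕ m0) (A : ℕ → Set Ω) (a : ℕ → ℝ), (∀ n, 0 ≤ a n) → Tendsto a atTop (𝓝 0) →
      IsModel μ ℱ A a →
      (∀ c : ℝ, 0 ≤ c → ∀ᵐ ω ∂μ, ∀ ε : ℝ, 0 < ε → ∀ᶠ i : ℕ in atTop,
        (empties {n | ω ∈ A n} c i : ℝ) ≤ (2 : ℝ) ^ (ε * i) * expected a c i ∧
        expected a c i ≤ (2 : ℝ) ^ (ε * i) * (empties {n | ω ∈ A n} c i + 1)) ∧
      (Spread a → ∀ᵐ ω ∂μ, {n | ω ∈ A n}.Infinite ∧ cramer {n | ω ∈ A n} = constant a)) ∧
    (∀ (Ω : Type) (m0 : MeasurableSpace Ω) (μ : Measure Ω) (_ : IsProbabilityMeasure μ)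
      (ℱ : Filtration ℕ m0) (A : ℕ → Set Ω) (T : ℕ → ℕ), Monotone T →
      (∀ ε : ℝ, 0 < ε → ∀ᶠ n : ℕ in atTop, (T n : ℝ) ≤ (n : ℝ) ^ ε) →
      IsModel μ ℱ A (sieveProfile T) →
      (∀ᵐ ω ∂μ, {n | ω ∈ A n}.Infinite ∧ 1 ≤ cramer {n | ω ∈ A n}) ∧
      (∀ c : ℝ, 0 < c → c < 1 → ∀ᵐ ω ∂μ, ∀ ε : ℝ, 0 < ε → ∀ᶠ i : ℕ in atTop,
        (2 : ℝ) ^ ((1 - c - ε) * i) ≤ empties {n | ω ∈ A n} c i) ∧
      ((∀ θ : ℝ, 0 < θ → ∀ᶠ n : ℕ in atTop, (T n : ℝ) ≤ (Real.log n) ^ θ) →
        (∀ᵐ ω ∂μ, cramer {n | ω ∈ A n} = 1) ∧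
        (∀ c : ℝ, 0 < c → c < 1 → ∀ᵐ ω ∂μ, ∀ ε : ℝ, 0 < ε → ∀ᶠ i : ℕ in atTop,
          (empties {n | ω ∈ A n} c i : ℝ) ≤ (2 : ℝ) ^ ((1 - c + ε) * i))) ∧
      ((∀ θ : ℝ, θ < 1 → ∀ᶠ n : ℕ in atTop, (Real.log n) ^ θ ≤ T n) →
        (∀ ε : ℝ, 0 < ε → ∀ᶠ n : ℕ in atTop, (T n : ℝ) ≤ ε * Real.log n) →
        (∀ᵐ ω ∂μ, ((2 * Real.exp (-Real.eulerMascheroniConstant) : ℝ) : EReal) ≤ cramer {n | ω ∈ A n}) ∧
        (∀ c : ℝ, 0 < c → c < 2 * Real.exp (-Real.eulerMascheroniConstant) →
          ∀ᵐ ω ∂μ, ∀ ε : ℝ, 0 < ε → ∀ᶠ i : ℕ in atTop,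
            (2 : ℝ) ^ ((1 - c * Real.exp Real.eulerMascheroniConstant / 2 - ε) * i) ≤
              empties {n | ω ∈ A n} c i))) ∧
    (∀ (Ω : Type) (m0 : MeasurableSpace Ω) (μ : Measure Ω) (_ : IsProbabilityMeasure μ)
      (A : ℕ → Set Ω) (hm : ∀ n, MeasurableSet (A n)) (a : ℕ → ℝ), ProbabilityTheory.iIndepSet A μ →
      (∀ ε : ℝ, 0 < ε → ∀ᶠ n : ℕ in atTop, |μ.real (A n) - a n| ≤ ε * a n) →
      IsModel μ (filtrationOfSet hm) A a) := by
  refine ⟨?_, ?_, ?_⟩
  · intro Ω m0 μ _ ℱ A a ha ha0 hA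
    exact ⟨fun c hc => Pool.Agent.U462.Gap.counts_real (toModel hA) ha ha0 hc,
      fun hR => Pool.Agent.U462.Gap.gap_const (toModel hA) ha ha0 hR⟩
  · intro Ω m0 μ _ ℱ A T hT hTs hA
    have hM : Pool.Agent.U462.Gap.Model μ ℱ A (Pool.Agent.U462.Gap.aT T) := toModel hA
    refine ⟨Pool.Agent.U462.Gap.sieve_general_LL hM hT hTs,
      fun c hc hc1 => Pool.Agent.U462.Gap.sieve_general hM hT hTs hc hc1, ?_, ?_⟩
    · intro hTl
      refine ⟨?_, fun c hc hc1 => ?_⟩
      · filter_upwards [Pool.Agent.U462.Gap.sieve_small_LL hM hT hTl] with ω hω using hω.2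
      · filter_upwards [Pool.Agent.U462.Gap.sieve_small hM hT hTl hc hc1] with ω hω ε hε
        exact (hω ε hε).mono fun i hi => hi.2
    · intro h1 h2
      refine ⟨?_, fun c hc hc1 => Pool.Agent.U462.Gap.sieve_near hM hT ⟨h1, h2⟩ hc hc1⟩
      filter_upwards [Pool.Agent.U462.Gap.sieve_near_LL hM hT ⟨h1, h2⟩] with ω hω using hω.2
  · intro Ω m0 μ _ A hm a hi hp
    have h := Pool.Agent.U462.Gap.indep_model hm hi hp
    exact ⟨h.adapted, h.law⟩

end Pool.Agent.Results.MP_b0c12c_nt.RecordScaleLaw
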